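import Pool.Agent.W423.NX.Defs

/-!
# NX-RELP: the weak relation of products
-/

set_option autoImplicit false
set_option maxHeartbeats 1000000

namespace Pool.Agent.W880.NX

open MvPolynomial Pool.Agent.H628R4.TZ Pool.Agent.W425.SM
open Pool.Agent.H628R4.TP hiding Sh
open Pool.Agent.W525.SM (Sh)
open Pool.Agent.W423.MG Pool.Agent.W423.NC Pool.Agent.W423.NX

variable {r N P : ℕ}

lemma rn_X (j : Fin r) : rn (X j : MvPolynomial (Fin r) ℂ) = X j.succ := by
  unfold rn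
  rw [rename_X]

lemma rn_C (c : ℂ) : rn (C c : MvPolynomial (Fin r) ℂ) = C c := by
  unfold rn
  rw [rename_C]

lemma rn_dm (M : ℕ) (j : Fin r) : rn (dm M j) = dm M j.succ := by
  unfold dm
  rw [map_prod]
  refine Finset.prod_congr rfl fun m _ => ?_
  rw [map_add, rn_X, rn_C]

lemma vx_zero_c (g : Fin r → Fin (P+1)) (v : Fin r → Fin N → ℕ) (m : Fin (P+1) → ℕ)
    (k : Fin (P+1)) : vx g v m 0 (Fin.castAdd N k) = m k := by
  unfold vx
  rw [Fin.cons_zero, Fin.append_left]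

lemma vx_zero_n (g : Fin r → Fin (P+1)) (v : Fin r → Fin N → ℕ) (m : Fin (P+1) → ℕ)
    (i : Fin N) : vx g v m 0 (Fin.natAdd (P+1) i) = 0 := by
  unfold vx
  rw [Fin.cons_zero, Fin.append_right]

lemma vx_succ_c (g : Fin r → Fin (P+1)) (v : Fin r → Fin N → ℕ) (m : Fin (P+1) → ℕ)
    (j : Fin r) (k : Fin (P+1)) :
    vx g v m j.succ (Fin.castAdd N k) = if g j = k then m k - 1 else m k := by
  unfold vx
  rw [Fin.cons_succ, Fin.append_left]

lemma vx_succ_n (g : Fin r → Fin (P+1)) (v : Fin r → Fin N → ℕ) (m : Fin (P+1) → ℕ)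
    (j : Fin r) (i : Fin N) : vx g v m j.succ (Fin.natAdd (P+1) i) = v j i := by
  unfold vx
  rw [Fin.cons_succ, Fin.append_right]

lemma elW_n (g : Fin r → Fin (P+1)) (v : Fin r → Fin N → ℕ) (m : Fin (P+1) → ℕ)
    (η : Fin (P+1) → ℝ) (i : Fin N) :
    elW (vx g v m) (wh η) (Fin.natAdd (P+1) i) = rn (el v i) := by
  unfold elW el Lf wh
  rw [Fin.append_right, Fin.sum_univ_succ, map_add, map_one, map_sum]
  simp only [vx_zero_n, vx_succ_n, map_mul, rn_X, rn_C, Nat.cast_zero, Complex.ofReal_zero,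
    map_zero, zero_mul, zero_add, Complex.ofReal_one, map_one]

lemma elW_c (g : Fin r → Fin (P+1)) (v : Fin r → Fin N → ℕ) (m : Fin (P+1) → ℕ)
    (hm : ∀ k, 1 ≤ m k) (η : ℝ) (k : Fin (P+1)) :
    elW (vx g v m) (wh fun k => η * (m k : ℝ)) (Fin.castAdd N k) =
      C ((m k : ℕ) : ℂ) * (Sg r + C (η : ℂ)) - rn (sgm g k) := by
  unfold elW Lf wh
  rw [Fin.append_left, rn_sgm, Fin.sum_univ_succ]
  unfold Sg
  rw [Fin.sum_univ_succ]
  simp only [vx_succ_c, vx_zero_c]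
  have h1 : ∑ j : Fin r, C ((((if g j = k then m k - 1 else m k : ℕ) : ℝ) : ℂ)) *
      (X j.succ : MvPolynomial (Fin (r+1)) ℂ) =
      C ((m k : ℕ) : ℂ) * (∑ j : Fin r, X j.succ) - ∑ j, if g j = k then X j.succ else 0 := by
    rw [Finset.mul_sum, ← Finset.sum_sub_distrib]
    refine Finset.sum_congr rfl fun j _ => ?_
    split_ifs with h
    · have h2 : (((m k - 1 : ℕ) : ℝ) : ℂ) = (m k : ℂ) - 1 := by
        rw [Nat.cast_sub (hm k)]; push_cast; ring
      rw [h2, map_sub, map_one]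
      ring
    · rw [sub_zero, Complex.ofReal_natCast]
  rw [h1]
  have h3 : ((η * (m k : ℝ) : ℝ) : ℂ) = (m k : ℂ) * (η : ℂ) := by push_cast; ring
  rw [h3, Complex.ofReal_natCast, map_mul]
  ring

lemma sum_c (g : Fin r → Fin (P+1)) (v : Fin r → Fin N → ℕ) (m : Fin (P+1) → ℕ)
    (hm : ∀ k, 1 ≤ m k) (d : Fin (r+1) → ℝ) (k : Fin (P+1)) :
    ∑ j, d j * (vx g v m j (Fin.castAdd N k) : ℝ) =
      (m k : ℝ) * ∑ j, d j - gs g (fun j => d j.succ) k := by
  rw [Fin.sum_univ_succ, Fin.sum_univ_succ, vx_zero_c]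
  unfold gs
  have h1 : ∑ j : Fin r, d j.succ * (vx g v m j.succ (Fin.castAdd N k) : ℝ) =
      (m k : ℝ) * ∑ j : Fin r, d j.succ - ∑ j, if g j = k then d j.succ else 0 := by
    rw [Finset.mul_sum, ← Finset.sum_sub_distrib]
    refine Finset.sum_congr rfl fun j _ => ?_
    rw [vx_succ_c]
    split_ifs with h
    · rw [Nat.cast_sub (hm k)]; push_cast; ring
    · ring
  rw [h1]
  ring

lemma sum_n (g : Fin r → Fin (P+1)) (v : Fin r → Fin N → ℕ) (m : Fin (P+1) → ℕ)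
    (d : Fin (r+1) → ℝ) (i : Fin N) :
    ∑ j, d j * (vx g v m j (Fin.natAdd (P+1) i) : ℝ) = ∑ j : Fin r, d j.succ * (v j i : ℝ) := by
  rw [Fin.sum_univ_succ, vx_zero_n]
  simp only [vx_succ_n, Nat.cast_zero, mul_zero, zero_add]

lemma prod_neg (M : ℕ) (z : ℤ) (c : Fin r → ℤ) :
    ∏ j, (if (Fin.cons z c : Fin (r+1) → ℤ) j < 0 then
      (X j * dm M j : MvPolynomial (Fin (r+1)) ℂ) else 1) =
      (if z < 0 then X 0 * dm M 0 else 1) *
        rn (∏ j, if c j < 0 then (X j * dm M j : MvPolynomial (Fin r) ℂ) else 1) := by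
  rw [Fin.prod_univ_succ, map_prod]
  simp only [Fin.cons_zero, Fin.cons_succ]
  congr 1
  refine Finset.prod_congr rfl fun j _ => ?_
  split_ifs
  · rw [map_mul, rn_X, rn_dm]
  · rw [map_one]

/-- a relation with terms indexed by a finite type -/
lemma relX_mk {r N : ℕ} (v : Fin r → Fin N → ℕ) (w : Fin N → ℝ) (θ : Fin r → ℝ) (α : Fin N → ℝ)
    (e W : MvPolynomial (Fin r) ℂ) {ι : Type} [Fintype ι] (M : ℕ) (c : ι → Fin r → ℤ)
    (B : ι → Finset (Fin N)) (q : ι → MvPolynomial (Fin r) ℂ)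
    (h1 : ∀ t, KillC v θ α (c t) (B t))
    (h2 : W * ∏ j, dm M j = ∑ t, (∏ i ∈ B t, elW v w i) *
      ((∏ j, if c t j < 0 then X j * dm M j else 1) * (e * q t))) : RelX v w θ α e W := by
  refine ⟨M, Fintype.card ι, fun t => c ((Fintype.equivFin ι).symm t),
    fun t => B ((Fintype.equivFin ι).symm t), fun t => q ((Fintype.equivFin ι).symm t),
    fun t => h1 _, ?_⟩
  rw [h2]
  exact ((Fintype.equivFin ι).symm.sum_comp (fun t => (∏ i ∈ B t, elW v w i) *
      ((∏ j, if c t j < 0 then X j * dm M j else 1) * (e * q t)))).symm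

lemma eval_cons_rn (z : ℂ) (u : Fin r → ℂ) (p : MvPolynomial (Fin r) ℂ) :
    eval (Fin.cons z u : Fin (r+1) → ℂ) (rn p) = eval u p := by
  unfold rn
  rw [eval_rename]
  congr 2

lemma eval_aeval (x : Fin (r+1) → ℂ) (τ : MvPolynomial (Fin (r+1)) ℂ) (b : Polynomial ℂ) :
    eval x (Polynomial.aeval τ b) = b.eval (eval x τ) := by
  have h1 := Polynomial.aeval_algHom_apply (MvPolynomial.aeval x : MvPolynomial (Fin (r+1)) ℂ →ₐ[ℂ] ℂ) τ b
  have h2 : ∀ p, (MvPolynomial.aeval x : MvPolynomial (Fin (r+1)) ℂ →ₐ[ℂ] ℂ) p = eval x p :=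
    fun p => congrFun (congrArg DFunLike.coe (MvPolynomial.coe_aeval_eq_eval x)) p
  rw [h2, h2, Polynomial.coe_aeval_eq_eval] at h1
  exact h1.symm

lemma gs_real_int (g : Fin r → Fin (P+1)) (c : Fin r → ℤ) (k : Fin (P+1)) :
    gs g (fun j => (c j : ℝ)) k = ((gs g c k : ℤ) : ℝ) := by
  unfold gs
  push_cast
  rfl

lemma kill1 (g : Fin r → Fin (P+1)) (v : Fin r → Fin N → ℕ) (θ : Fin r → ℝ)
    (m : Fin (P+1) → ℕ) (hm : ∀ k, 1 ≤ m k) (θ0 α0 αx : ℝ) (c : Fin r → ℤ)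
    (B : Finset (Fin N)) (h : Kd1 g v m c B) :
    KillC (vx g v m) (Fin.cons θ0 θ) (ax α0 αx) (Fin.cons (1 - ∑ k, (m k : ℤ)) c)
      (B.map (Fin.natAddEmb (P+1))) := by
  obtain ⟨l, hl, hg, hx⟩ := h
  have hs : ∑ j, ((c j : ℝ) + l j) = ∑ k, (m k : ℝ) := by
    rw [← sum_gs g (fun j => (c j : ℝ) + l j)]
    exact Finset.sum_congr rfl fun k _ => hg k
  obtain ⟨d, hd⟩ : ∃ d : Fin (r+1) → ℝ, d = fun j =>
    (((Fin.cons (1 - ∑ k, (m k : ℤ)) c : Fin (r+1) → ℤ) j : ℤ) : ℝ) +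
      (Fin.cons (0 : ℝ) l : Fin (r+1) → ℝ) j := ⟨_, rfl⟩
  have hds : ∀ j : Fin r, d j.succ = (c j : ℝ) + l j := by
    intro j; rw [hd]; simp only [Fin.cons_succ]
  have hd0 : d 0 = 1 - ∑ k, (m k : ℝ) := by
    rw [hd]; simp only [Fin.cons_zero]; push_cast; ring
  have hsum : ∑ j, d j = 1 := by
    rw [Fin.sum_univ_succ, hd0]
    simp only [hds]
    rw [hs]
    ring
  refine ⟨Fin.cons 0 l, ?_, ?_, Or.inl ?_⟩
  · intro j
    refine Fin.cases ?_ (fun j => ?_) j
    · simp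
    · simpa using hl j
  · intro i hi
    have e : ∀ i, ∑ j, ((((Fin.cons (1 - ∑ k, (m k : ℤ)) c : Fin (r+1) → ℤ) j : ℤ) : ℝ) +
      (Fin.cons (0 : ℝ) l : Fin (r+1) → ℝ) j) * (vx g v m j i : ℝ) =
        ∑ j, d j * (vx g v m j i : ℝ) := by
      intro i; rw [hd]
    rw [e]
    revert hi
    refine Fin.addCases (fun k => ?_) (fun i => ?_) i
    · intro _
      rw [sum_c g v m hm, hsum, mul_one]
      simp only [hds]
      rw [hg k]
      simp
    · intro hi
      rw [sum_n]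
      simp only [hds]
      refine hx i fun hiB => hi ?_
      exact Finset.mem_map.2 ⟨i, hiB, rfl⟩
  · rw [← hsum, hd]

lemma ax_c (α0 αx : ℝ) (k : Fin (P+1)) : ax (N := N) α0 αx (Fin.castAdd N k) = α0 := by
  unfold ax
  rw [Fin.append_left]

lemma ax_n (α0 αx : ℝ) (i : Fin N) : ax (P := P) α0 αx (Fin.natAdd (P+1) i) = αx := by
  unfold ax
  rw [Fin.append_right]

lemma ax_sum (g : Fin r → Fin (P+1)) (v : Fin r → Fin N → ℕ)
    (m : Fin (P+1) → ℕ) (hm : ∀ k, 1 ≤ m k) (α0 αx : ℝ) (d : Fin (r+1) → ℝ)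
    (hsum : ∑ j, d j = 0) :
    ∑ i, ax (N := N) (P := P) α0 αx i * ∑ j, d j * (vx g v m j i : ℝ) =
      αx * ∑ i, ∑ j : Fin r, d j.succ * (v j i : ℝ) - α0 * ∑ j : Fin r, d j.succ := by
  rw [Fin.sum_univ_add]
  simp only [ax_c, ax_n, sum_n]
  simp only [sum_c g v m hm, hsum, mul_zero, zero_sub]
  rw [← Finset.mul_sum, ← Finset.mul_sum, Finset.sum_neg_distrib, sum_gs]
  ring

lemma kill2 (loc : Prop) (g : Fin r → Fin (P+1)) (v : Fin r → Fin N → ℕ) (θ : Fin r → ℝ)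
    (m : Fin (P+1) → ℕ) (hm : ∀ k, 1 ≤ m k) (θ0 α0 αx : ℝ) (hαx : loc → αx < 0)
    (c : Fin r → ℤ) (h : Kd0 g v θ loc c) :
    KillC (vx g v m) (Fin.cons θ0 θ) (ax α0 αx) (Fin.cons 0 c) ∅ := by
  rcases h with ⟨hg, hS, hθ⟩ | ⟨hloc, l, hl, hg, hx, hneg⟩
  · have hs : ∑ j, (c j : ℝ) = 0 := by
      rw [← sum_gs g (fun j => (c j : ℝ))]
      refine Finset.sum_eq_zero fun k _ => ?_
      rw [gs_real_int, hg k]
      simp
    obtain ⟨d, hd⟩ : ∃ d : Fin (r+1) → ℝ, d = fun j =>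
      (((Fin.cons 0 c : Fin (r+1) → ℤ) j : ℤ) : ℝ) + (0 : Fin (r+1) → ℝ) j := ⟨_, rfl⟩
    have hds : ∀ j : Fin r, d j.succ = (c j : ℝ) := by
      intro j; rw [hd]; simp
    have hd0 : d 0 = 0 := by
      rw [hd]; simp
    have hsum : ∑ j, d j = 0 := by
      rw [Fin.sum_univ_succ, hd0]
      simp only [hds]
      rw [hs, add_zero]
    have hSr : ∀ i, ∑ j, (c j : ℝ) * (v j i : ℝ) = 0 := by
      intro i
      have := hS i
      unfold Sh at this
      exact_mod_cast this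
    refine ⟨0, fun j => le_rfl, ?_, Or.inr ⟨?_, Or.inr ⟨?_, ?_⟩⟩⟩
    · intro i _
      have e : ∑ j, ((((Fin.cons 0 c : Fin (r+1) → ℤ) j : ℤ) : ℝ) +
        (0 : Fin (r+1) → ℝ) j) * (vx g v m j i : ℝ) = ∑ j, d j * (vx g v m j i : ℝ) := by
        rw [hd]
      rw [e]
      refine Fin.addCases (fun k => ?_) (fun i => ?_) i
      · rw [sum_c g v m hm, hsum, mul_zero]
        simp only [hds]
        rw [gs_real_int, hg k]
        simp
      · rw [sum_n]
        simp only [hds]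
        rw [hSr i]
    · rw [← hsum, hd]
    · have e := ax_sum g v m hm α0 αx d hsum
      rw [hd] at e
      rw [e]
      have h1 : ∀ j : Fin r, (((Fin.cons 0 c : Fin (r+1) → ℤ) j.succ : ℤ) : ℝ) +
        (0 : Fin (r+1) → ℝ) j.succ = (c j : ℝ) := by intro j; simp
      simp only [h1, hSr, hs]
      simp
    · have h1 : ∑ j, ((((Fin.cons 0 c : Fin (r+1) → ℤ) j : ℤ) : ℝ) +
        (0 : Fin (r+1) → ℝ) j) * (Fin.cons θ0 θ : Fin (r+1) → ℝ) j = ∑ j, (c j : ℝ) * θ j := by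
        rw [Fin.sum_univ_succ]
        simp
      rw [h1]
      exact hθ
  · have hs : ∑ j, ((c j : ℝ) + l j) = 0 := by
      rw [← sum_gs g (fun j => (c j : ℝ) + l j)]
      exact Finset.sum_eq_zero fun k _ => hg k
    obtain ⟨d, hd⟩ : ∃ d : Fin (r+1) → ℝ, d = fun j =>
      (((Fin.cons 0 c : Fin (r+1) → ℤ) j : ℤ) : ℝ) +
        (Fin.cons (0 : ℝ) l : Fin (r+1) → ℝ) j := ⟨_, rfl⟩
    have hds : ∀ j : Fin r, d j.succ = (c j : ℝ) + l j := by
      intro j; rw [hd]; simp only [Fin.cons_succ]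
    have hd0 : d 0 = 0 := by
      rw [hd]; simp
    have hsum : ∑ j, d j = 0 := by
      rw [Fin.sum_univ_succ, hd0]
      simp only [hds]
      rw [hs, add_zero]
    refine ⟨Fin.cons 0 l, ?_, ?_, Or.inr ⟨?_, Or.inl ?_⟩⟩
    · intro j
      refine Fin.cases ?_ (fun j => ?_) j
      · simp
      · simpa using hl j
    · intro i _
      have e : ∑ j, ((((Fin.cons 0 c : Fin (r+1) → ℤ) j : ℤ) : ℝ) +
        (Fin.cons (0 : ℝ) l : Fin (r+1) → ℝ) j) * (vx g v m j i : ℝ) =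
          ∑ j, d j * (vx g v m j i : ℝ) := by
        rw [hd]
      rw [e]
      refine Fin.addCases (fun k => ?_) (fun i => ?_) i
      · rw [sum_c g v m hm, hsum, mul_zero]
        simp only [hds]
        rw [hg k]
        simp
      · rw [sum_n]
        simp only [hds]
        exact hx i
    · have e0 := hsum
      rw [hd] at e0
      exact e0
    · have e := ax_sum g v m hm α0 αx d hsum
      simp only [hds, hs, mul_zero, sub_zero] at e
      rw [hd] at e
      rw [e]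
      obtain ⟨i0, hi0⟩ := hneg
      refine mul_pos_of_neg_of_neg (hαx hloc) ?_
      exact Finset.sum_neg' (fun i _ => hx i) ⟨i0, Finset.mem_univ _, hi0⟩

lemma kill3 (g : Fin r → Fin (P+1)) (v : Fin r → Fin N → ℕ) (θ : Fin r → ℝ)
    (m : Fin (P+1) → ℕ) (hm : ∀ k, 1 ≤ m k) (θ0 α0 αx : ℝ)
    (j0 : Fin r) (hα : αx * ∑ i, (v j0 i : ℝ) < α0) :
    KillC (vx g v m) (Fin.cons θ0 θ) (ax α0 αx)
      (Fin.cons 1 (fun j => if j = j0 then -1 else 0)) {Fin.castAdd N (g j0)} := by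
  obtain ⟨d, hd⟩ : ∃ d : Fin (r+1) → ℝ, d = fun j =>
      (((Fin.cons 1 (fun j => if j = j0 then -1 else 0) : Fin (r+1) → ℤ) j : ℤ) : ℝ) +
        (0 : Fin (r+1) → ℝ) j := ⟨_, rfl⟩
  have hds : ∀ j : Fin r, d j.succ = if j = j0 then -1 else 0 := by
    intro j; rw [hd]; simp
  have hd0 : d 0 = 1 := by
    rw [hd]; simp
  have hsd : ∑ j : Fin r, (if j = j0 then (-1:ℝ) else 0) = -1 := by
    rw [Finset.sum_ite_eq' Finset.univ j0]; simp
  have hsum : ∑ j, d j = 0 := by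
    rw [Fin.sum_univ_succ, hd0]
    simp only [hds]
    rw [hsd]
    ring
  have hv : ∀ i, ∑ j : Fin r, (if j = j0 then (-1:ℝ) else 0) * (v j i : ℝ) = -(v j0 i : ℝ) := by
    intro i
    rw [Finset.sum_eq_single j0]
    · simp
    · intro j _ hj; simp [hj]
    · intro h; exact absurd (Finset.mem_univ _) h
  refine ⟨0, fun j => le_rfl, ?_, Or.inr ⟨?_, Or.inl ?_⟩⟩
  · intro i hi
    have e : ∑ j, ((((Fin.cons 1 (fun j => if j = j0 then -1 else 0) : Fin (r+1) → ℤ) j : ℤ) : ℝ) +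
      (0 : Fin (r+1) → ℝ) j) * (vx g v m j i : ℝ) = ∑ j, d j * (vx g v m j i : ℝ) := by
      rw [hd]
    rw [e]
    revert hi
    refine Fin.addCases (fun k => ?_) (fun i => ?_) i
    · intro hk
      have hk' : g j0 ≠ k := by
        intro h
        apply hk
        rw [h]
        exact Finset.mem_singleton_self _
      rw [sum_c g v m hm, hsum, mul_zero]
      simp only [hds]
      unfold gs
      rw [Finset.sum_eq_zero]
      · simp
      · intro j _
        by_cases hj : j = j0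
        · rw [hj, if_neg hk']
        · simp [hj]
    · intro _
      rw [sum_n]
      simp only [hds]
      rw [hv]
      simp
  · rw [← hsum, hd]
  · have e := ax_sum g v m hm α0 αx d hsum
    simp only [hds, hv, hsd] at e
    rw [hd] at e
    rw [e, Finset.sum_neg_distrib]
    linarith

lemma rise_dvd (g : Fin r → Fin (P+1)) (n1 n : ℕ) (h : n ≤ n1) (k : Fin (P+1)) :
    (∏ i ∈ Finset.range n, (sgm g k + C (i : ℂ))) ∣ rise g n1 := by
  unfold rise
  refine dvd_trans ?_ (Finset.dvd_prod_of_mem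
    (fun k => ∏ i ∈ Finset.range n1, (sgm g k + C (i : ℂ))) (Finset.mem_univ k))
  exact Finset.prod_dvd_prod_of_subset _ _ _ (Finset.range_mono h)

lemma rise_span (h2 : TaskRise) (g : Fin r → Fin (P+1)) (M : ℕ) (k : Fin (P+1)) :
    ∃ H : Fin r → MvPolynomial (Fin r) ℂ, rise g (r * M + 2) =
      ∑ j, if g j = k then H j * (X j * dm M j) else 0 := by
  classical
  have h3 := h2 g k M
  have h4 : Ideal.span {p : MvPolynomial (Fin r) ℂ | ∃ j, g j = k ∧ p = X j * dm M j} ≤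
      Ideal.span (Set.range fun j : Fin r => if g j = k then
        (X j * dm M j : MvPolynomial (Fin r) ℂ) else 0) := by
    refine Ideal.span_mono ?_
    rintro p ⟨j, hj, rfl⟩
    exact ⟨j, by simp only [if_pos hj]⟩
  obtain ⟨H, hH⟩ := Ideal.mem_span_range_iff_exists_fun.1 (h4 h3)
  obtain ⟨R, hR⟩ := rise_dvd g (r * M + 2) (r * M + 1) (by omega) k
  refine ⟨fun j => R * H j, ?_⟩
  rw [hR, ← hH, Finset.sum_mul]
  refine Finset.sum_congr rfl fun j _ => ?_
  split_ifs <;> ring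

theorem relP_of (h1 : TaskMod) (h2 : TaskRise) : TaskRelP := by
  classical
  intro r N P loc g v θ m bs b hsurj hm hbs hrel
  obtain ⟨M, n, n0, c, B, q, c0, q0, hM, hK1, hK0, -, hrel⟩ := hrel
  refine ⟨r * M + 2, by omega, ?_⟩
  intro θ0 η α0 αx hη hαx hα
  obtain ⟨τ, hτ⟩ : ∃ τ : MvPolynomial (Fin (r+1)) ℂ, τ = Sg r + C (η : ℂ) := ⟨_, rfl⟩
  obtain ⟨A, hA⟩ : ∃ A : MvPolynomial (Fin r) ℂ, A = ∏ j, dm M j +
    ∑ t, (∏ j, if c0 t j < 0 then X j * dm M j else 1) * q0 t := ⟨_, rfl⟩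
  obtain ⟨Bp, hBp⟩ : ∃ Bp : MvPolynomial (Fin r) ℂ, Bp = ∑ t, (∏ i ∈ B t, el v i) *
    ((∏ j, if c t j < 0 then X j * dm M j else 1) * q t) := ⟨_, rfl⟩
  obtain ⟨QQ, hQ⟩ : ∃ QQ : MvPolynomial (Fin (r+1)) ℂ, QQ = ∏ k, ∏ i ∈ Finset.range (m k),
    (C ((m k : ℕ) : ℂ) * τ + C ((i : ℂ) + 1)) := ⟨_, rfl⟩
  obtain ⟨G, hG⟩ : ∃ G : MvPolynomial (Fin (r+1)) ℂ,
    G = Polynomial.aeval τ b * rn A - QQ * rn Bp := ⟨_, rfl⟩
  rw [← hA, ← hBp] at hrel
  have hGm : G ∈ Ideal.span (Set.range fun k =>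
      rn (sgm g k) - C ((m k : ℕ) : ℂ) * (Sg r + C (η : ℂ))) := by
    refine h1 g m η G hsurj hm ?_
    intro n u hu
    obtain ⟨x, hx⟩ : ∃ x : Fin (r+1) → ℂ, x = (Fin.cons ((n : ℂ) - (η : ℂ) - ∑ j, (u j : ℂ))
      (fun j => (u j : ℂ)) : Fin (r+1) → ℂ) := ⟨_, rfl⟩
    rw [← hx]
    have hgs : gs g u = fun k => m k * n := funext hu
    have hτx : eval x τ = (n : ℂ) := by
      rw [hτ, hx]
      unfold Sg
      rw [map_add, map_sum, Fin.sum_univ_succ, eval_C]
      simp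
    have hAx : eval x (rn A) = eval (fun j => (u j : ℂ)) A := by rw [hx, eval_cons_rn]
    have hBx : eval x (rn Bp) = eval (fun j => (u j : ℂ)) Bp := by rw [hx, eval_cons_rn]
    have hQx : eval x QQ = ∏ k, ∏ i ∈ Finset.range (m k), (((gs g u k : ℕ) : ℂ) + i + 1) := by
      rw [hQ, map_prod]
      refine Finset.prod_congr rfl fun k _ => ?_
      rw [map_prod]
      refine Finset.prod_congr rfl fun i _ => ?_
      rw [map_add, map_mul, eval_C, eval_C, hτx, hu k]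
      push_cast
      ring
    have h3 := hrel u ⟨n, hgs⟩
    rw [hG, map_sub, map_mul, map_mul, eval_aeval, hτx, hAx, hBx, hQx, ← hbs n, ← hgs, h3,
      sub_self]
  obtain ⟨G', hG'⟩ := Ideal.mem_span_range_iff_exists_fun.1 hGm
  choose H hH using fun k => rise_span h2 g M k
  -- the factor `X_0 * dm_0`
  obtain ⟨Z, hZ⟩ : ∃ Z : MvPolynomial (Fin (r+1)) ℂ, Z = X 0 * dm M 0 := ⟨_, rfl⟩
  refine relX_mk (ι := Fin n ⊕ (Fin n0 ⊕ Fin r)) _ _ _ _ _ _ M
    (Sum.elim (fun t => Fin.cons (1 - ∑ k, (m k : ℤ)) (c t))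
      (Sum.elim (fun t => Fin.cons 0 (c0 t))
        (fun j0 => Fin.cons 1 (fun j => if j = j0 then -1 else 0))))
    (Sum.elim (fun t => (B t).map (Fin.natAddEmb (P+1)))
      (Sum.elim (fun _ => ∅) (fun j0 => {Fin.castAdd N (g j0)})))
    (Sum.elim (fun t => (if 1 - ∑ k, (m k : ℤ) < 0 then 1 else Z) *
        (rn (rise g (r * M + 2)) * QQ * rn (q t)))
      (Sum.elim (fun t => - (Z * rn (rise g (r * M + 2)) * Polynomial.aeval τ b * rn (q0 t)))
        (fun j0 => - (Z * rn (H (g j0) j0) * G' (g j0))))) ?_ ?_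
  · rintro (t | t | t)
    · exact kill1 g v θ m hm θ0 α0 αx (c t) (B t) (hK1 t)
    · exact kill2 loc g v θ m hm θ0 α0 αx hαx (c0 t) (hK0 t)
    · exact kill3 g v θ m hm θ0 α0 αx t (hα t)
  · rw [Fintype.sum_sum_type, Fintype.sum_sum_type]
    have e1 : ∀ t, (∏ i ∈ (B t).map (Fin.natAddEmb (P+1)),
        elW (vx g v m) (wh fun k => η * (m k : ℝ)) i) *
        ((∏ j, if (Fin.cons (1 - ∑ k, (m k : ℤ)) (c t) : Fin (r+1) → ℤ) j < 0 then
          X j * dm M j else 1) * (1 * ((if 1 - ∑ k, (m k : ℤ) < 0 then 1 else Z) *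
        (rn (rise g (r * M + 2)) * QQ * rn (q t))))) =
        Z * rn (rise g (r * M + 2)) * QQ * rn ((∏ i ∈ B t, el v i) *
          ((∏ j, if c t j < 0 then X j * dm M j else 1) * q t)) := by
      intro t
      rw [Finset.prod_map, prod_neg]
      obtain ⟨Y, hY⟩ : ∃ Y : MvPolynomial (Fin r) ℂ,
        Y = ∏ j, if c t j < 0 then X j * dm M j else 1 := ⟨_, rfl⟩
      rw [← hY, map_mul, map_prod, map_mul]
      have h3 : ∀ i, elW (vx g v m) (wh fun k => η * (m k : ℝ)) ((Fin.natAddEmb (P+1)) i) =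
        rn (el v i) := fun i => elW_n g v m _ i
      rw [Finset.prod_congr rfl fun i _ => h3 i]
      split_ifs
      · rw [hZ]; ring
      · ring
    have e2 : ∀ t, (∏ i ∈ (∅ : Finset (Fin (P+1+N))),
        elW (vx g v m) (wh fun k => η * (m k : ℝ)) i) *
        ((∏ j, if (Fin.cons 0 (c0 t) : Fin (r+1) → ℤ) j < 0 then
          X j * dm M j else 1) * (1 * -(Z * rn (rise g (r * M + 2)) * Polynomial.aeval τ b *
            rn (q0 t)))) =
        - (Z * rn (rise g (r * M + 2)) * Polynomial.aeval τ b *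
          rn ((∏ j, if c0 t j < 0 then X j * dm M j else 1) * q0 t)) := by
      intro t
      rw [Finset.prod_empty, prod_neg, if_neg (lt_irrefl _), map_mul]
      ring
    have e3 : ∀ t : Fin r, (∏ i ∈ ({Fin.castAdd N (g t)} : Finset (Fin (P+1+N))),
        elW (vx g v m) (wh fun k => η * (m k : ℝ)) i) *
        ((∏ j, if (Fin.cons 1 (fun j => if j = t then -1 else 0) : Fin (r+1) → ℤ) j < 0 then
          X j * dm M j else 1) * (1 * -(Z * rn (H (g t) t) * G' (g t)))) =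
        Z * (G' (g t) * (rn (sgm g (g t)) - C ((m (g t) : ℕ) : ℂ) * (Sg r + C (η : ℂ)))) *
          rn (H (g t) t * (X t * dm M t)) := by
      intro t
      rw [Finset.prod_singleton, elW_c g v m hm, prod_neg, if_neg (by norm_num)]
      have h3 : (∏ j, if (if j = t then (-1 : ℤ) else 0) < 0 then
          (X j * dm M j : MvPolynomial (Fin r) ℂ) else 1) = X t * dm M t := by
        rw [Finset.prod_eq_single t]
        · simp
        · intro j _ hj
          simp [hj]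
        · intro h; exact absurd (Finset.mem_univ _) h
      rw [h3, map_mul rn (H (g t) t)]
      ring
    have f1 : ∑ t, Z * rn (rise g (r * M + 2)) * QQ * rn ((∏ i ∈ B t, el v i) *
          ((∏ j, if c t j < 0 then X j * dm M j else 1) * q t)) =
        Z * rn (rise g (r * M + 2)) * QQ * rn Bp := by
      rw [hBp, map_sum, Finset.mul_sum]
    have f2 : ∑ t, - (Z * rn (rise g (r * M + 2)) * Polynomial.aeval τ b *
          rn ((∏ j, if c0 t j < 0 then X j * dm M j else 1) * q0 t)) =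
        - (Z * rn (rise g (r * M + 2)) * Polynomial.aeval τ b * rn (A - ∏ j, dm M j)) := by
      rw [hA, add_sub_cancel_left, map_sum, Finset.mul_sum, Finset.sum_neg_distrib]
    have f3 : ∑ t : Fin r, Z * (G' (g t) * (rn (sgm g (g t)) -
          C ((m (g t) : ℕ) : ℂ) * (Sg r + C (η : ℂ)))) * rn (H (g t) t * (X t * dm M t)) =
        Z * rn (rise g (r * M + 2)) * G := by
      rw [← hG', Finset.mul_sum]
      have h3 : ∀ k, Z * rn (rise g (r * M + 2)) * (G' k * (rn (sgm g k) -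
          C ((m k : ℕ) : ℂ) * (Sg r + C (η : ℂ)))) =
          ∑ t : Fin r, if g t = k then Z * (G' (g t) * (rn (sgm g (g t)) -
          C ((m (g t) : ℕ) : ℂ) * (Sg r + C (η : ℂ)))) * rn (H (g t) t * (X t * dm M t))
            else 0 := by
        intro k
        rw [hH k, map_sum, Finset.mul_sum, Finset.sum_mul]
        refine Finset.sum_congr rfl fun t _ => ?_
        by_cases ht : g t = k
        · rw [if_pos ht, if_pos ht, ht]
          ring
        · rw [if_neg ht, if_neg ht, map_zero, mul_zero, zero_mul]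
      rw [Finset.sum_congr rfl fun k _ => h3 k, Finset.sum_comm]
      refine Finset.sum_congr rfl fun t _ => ?_
      rw [Finset.sum_ite_eq Finset.univ (g t), if_pos (Finset.mem_univ _)]
    have g1 := (Finset.sum_congr rfl fun t _ => e1 t).trans f1
    have g2 := (Finset.sum_congr rfl fun t _ => e2 t).trans f2
    have g3 := (Finset.sum_congr rfl fun t _ => e3 t).trans f3
    refine Eq.trans ?_ (congrArg₂ (fun x y => x + y) g1 (congrArg₂ (fun x y => x + y) g2 g3)).symm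
    rw [hG, map_sub, Fin.prod_univ_succ, map_prod]
    simp only [rn_dm]
    rw [← hτ, hZ]
    ring

end Pool.Agent.W880.NX
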